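import Pool.Agent.GKO.Final

/-!
# The coset decomposition question Q1 has a negative answer

For `l = 3` and characteristic `23 > 2 l^2 + l - 3 = 18` the summand
`V(λ_{3;3}) ⊗ L_{c_3, η(n,3)}` is reducible.
-/

set_option autoImplicit false

namespace Pool.Agent.Results.MP_4901aa_al.GKOFails

open Pool.Agent.GKO

/-- Q1 is false; explicitly, over every field of characteristic 23 the summand with `l = 3`,
`j = 3` and any `n ≤ 2` is not irreducible. -/
theorem result : ¬ Q1 ∧ ∀ (K : Type) [Field K] [CharP K 23] (n : ℕ), n ≤ 2 →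
    ¬ (summand K 3 n 3).Irred :=
  ⟨not_Q1, fun K _ _ n _ => not_irreducible K n⟩

end Pool.Agent.Results.MP_4901aa_al.GKOFails
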